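import Mathlib
import Pool.Agent.V11269.HallWords

namespace Pool.Agent.Results.MP_ce417a_nt.NotExtremal

open MeasureTheory Pool.Agent.V11269.HallWords

/-- There are pairwise distinct nonempty words for which the matrix monomial manifold is not
extremal; in fact every point of it is very well approximable. -/
theorem result : ∃ m n r : ℕ, 2 ≤ m ∧ 1 ≤ n ∧ 1 ≤ r ∧ ∃ P : Fin n → List (Fin r),
    Function.Injective P ∧ (∀ ℓ, P ℓ ≠ []) ∧
    (∀ X : Fin r → Fin m → Fin m → ℝ, VWA (psi P X)) ∧ ¬ Extremal (m := m) P := by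
  refine ⟨2, 6, 2, le_refl _, by norm_num, by norm_num, hall, hall_injective, hall_ne_nil,
    all_vwa, ?_⟩
  intro h
  have i1 : (volume : Measure (Fin 2 → Fin 2 → ℝ)).IsOpenPosMeasure := by
    rw [volume_pi]; infer_instance
  have i2 : (volume : Measure (Fin 2 → Fin 2 → Fin 2 → ℝ)).IsOpenPosMeasure := by
    rw [volume_pi]; infer_instance
  have h0 : (volume : Measure (Fin 2 → Fin 2 → Fin 2 → ℝ)) ≠ 0 := by
    intro h0
    have h1 := isOpen_univ.measure_pos (volume : Measure (Fin 2 → Fin 2 → Fin 2 → ℝ))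
      Set.univ_nonempty
    rw [h0] at h1
    simp at h1
  have := ae_neBot.2 h0
  obtain ⟨X, hX⟩ := Filter.Eventually.exists h
  exact hX (all_vwa X)

end Pool.Agent.Results.MP_ce417a_nt.NotExtremal
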